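import Pool.Agent.helper55.NK.Spec

set_option autoImplicit false

namespace Pool.Agent.helper53.NK

open Pool.Agent.NK Finset

theorem QNU_mono (hMO1 : MO1_stmt) (hMO2 : MO2_stmt) (i0 j0 i j w : ℝ) (hi0 : 2 ≤ i0)
    (hj0 : 2 ≤ j0) (hi : i0 ≤ i) (hj : j0 ≤ j) (hw : 9 ≤ w) : qq i0 j0 9 ≤ qq i j w := by
  have h1 := hMO1 i0 j0 9 i j w hi0 hj0 le_rfl hi hj hw
  have h2 := hMO1 j0 i0 9 j i w hj0 hi0 le_rfl hj hi hw
  have h3 := hMO2 i0 j0 9 i j w hi0 hj0 le_rfl hi hj hw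
  have h4 := hMO2 j0 i0 9 j i w hj0 hi0 le_rfl hj hi hw
  unfold qq
  linarith

theorem QNU (hMO1 : MO1_stmt) (hMO2 : MO2_stmt) : QNU_stmt := by
  intro i j w hi hj hw
  have key : ∀ (i0 j0 : ℕ), 2 ≤ i0 → 2 ≤ j0 → i0 ≤ i → j0 ≤ j →
      qq (i0 : ℝ) (j0 : ℝ) 9 ≤ qq (i : ℝ) (j : ℝ) w := by
    intro i0 j0 h1 h2 h3 h4
    exact QNU_mono hMO1 hMO2 _ _ _ _ _ (by exact_mod_cast h1) (by exact_mod_cast h2)
      (by exact_mod_cast h3) (by exact_mod_cast h4) hw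
  refine ⟨fun h => ?_, fun h => ?_, fun h => ?_, fun h => ?_⟩
  · have hcase : (2 ≤ i ∧ 5 ≤ j) ∨ (3 ≤ i ∧ 4 ≤ j) ∨ (4 ≤ i ∧ 3 ≤ j) ∨ (5 ≤ i ∧ 2 ≤ j) := by
      omega
    rcases hcase with ⟨h1, h2⟩ | ⟨h1, h2⟩ | ⟨h1, h2⟩ | ⟨h1, h2⟩
    · refine le_trans ?_ (key 2 5 (by norm_num) (by norm_num) h1 h2)
      unfold qq r1 r2; norm_num
    · refine le_trans ?_ (key 3 4 (by norm_num) (by norm_num) h1 h2)
      unfold qq r1 r2; norm_num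
    · refine le_trans ?_ (key 4 3 (by norm_num) (by norm_num) h1 h2)
      unfold qq r1 r2; norm_num
    · refine le_trans ?_ (key 5 2 (by norm_num) (by norm_num) h1 h2)
      unfold qq r1 r2; norm_num
  · have hcase : (2 ≤ i ∧ 4 ≤ j) ∨ (3 ≤ i ∧ 3 ≤ j) ∨ (4 ≤ i ∧ 2 ≤ j) := by
      omega
    rcases hcase with ⟨h1, h2⟩ | ⟨h1, h2⟩ | ⟨h1, h2⟩
    · refine le_trans ?_ (key 2 4 (by norm_num) (by norm_num) h1 h2)
      unfold qq r1 r2; norm_num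
    · refine le_trans ?_ (key 3 3 (by norm_num) (by norm_num) h1 h2)
      unfold qq r1 r2; norm_num
    · refine le_trans ?_ (key 4 2 (by norm_num) (by norm_num) h1 h2)
      unfold qq r1 r2; norm_num
  · have hcase : (2 ≤ i ∧ 3 ≤ j) ∨ (3 ≤ i ∧ 2 ≤ j) := by
      omega
    rcases hcase with ⟨h1, h2⟩ | ⟨h1, h2⟩
    · refine le_trans ?_ (key 2 3 (by norm_num) (by norm_num) h1 h2)
      unfold qq r1 r2; norm_num
    · refine le_trans ?_ (key 3 2 (by norm_num) (by norm_num) h1 h2)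
      unfold qq r1 r2; norm_num
  · refine le_trans ?_ (key 2 2 (by norm_num) (by norm_num) hi hj)
    unfold qq r1 r2; norm_num

end Pool.Agent.helper53.NK
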